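import Pool.Agent.H30.SY.Stm4

/-!
# First-passage percolation: the cluster lies in a ball
-/

set_option autoImplicit false

open MeasureTheory ProbabilityTheory Finset Filter
open Q70.Fp Pool.Agent.H30.SY

namespace Pool.Agent.H31.SY

theorem t_BOX : S_BOX := by
  intro t ht
  have h0 : t ≤ (⌈t⌉₊ : ℝ) := Nat.le_ceil t
  have h1 : (⌈t⌉₊ : ℝ) < t + 1 := Nat.ceil_lt_add_one (by linarith)
  refine (measureReal_mono ?_ (measure_ne_top _ _)).trans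
    (bad_le 0 (show 66 * ⌈t⌉₊ ≤ 66 * ⌈t⌉₊ + 1 by omega))
  rintro w ⟨v, hv, hT⟩
  have h2 : 66 * ⌈t⌉₊ < dd 0 v := by
    have : ((66 * ⌈t⌉₊ : ℕ) : ℝ) < (dd 0 v : ℝ) := by
      push_cast
      linarith
    exact_mod_cast this
  have h3 : TT (pw w) 0 v < 3 * (⌈t⌉₊ : ℝ) := by linarith
  obtain ⟨n, p, hp, hlt⟩ := exists_lt h3
  have h4 : 66 * ⌈t⌉₊ < dd 0 (p n) := by
    rw [hp.2.1]
    exact h2
  obtain ⟨q, a1, a2, a3, a4⟩ := bad_of_exit (pw_nonneg w) hp le_rfl h4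
  exact ⟨q, a1, a2, a3, a4.trans hlt.le⟩

end Pool.Agent.H31.SY
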