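import Pool.Agent.H30.SY.Stm

/-!
# First-passage percolation: symmetric clusters give symmetric passage times
-/

set_option autoImplicit false

open MeasureTheory ProbabilityTheory Finset Filter
open scoped Topology

namespace Pool.Agent.H31.SY

open Q70.Fp Pool.Agent.H30.SY

lemma card_ball' (R : ℕ) (u : ℤ × ℤ) : (ball R u).card ≤ (2 * R + 1) ^ 2 := by
  refine (Finset.card_filter_le _ _).trans ?_
  rw [Finset.card_product, Int.card_Icc, Int.card_Icc, sq]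
  refine Nat.mul_le_mul ?_ ?_ <;> omega

/-- connections near a point -/
lemma fast (u : ℤ × ℤ) (R : ℕ) :
    nu.real {w : Ed → ℝ | ∃ y, dd u y ≤ R ∧ 3 * (R:ℝ) ≤ TT (pw w) y u} ≤
      (2 * (R:ℝ) + 1) ^ 2 * (1 / 2) ^ R := by
  have h1 : {w : Ed → ℝ | ∃ y, dd u y ≤ R ∧ 3 * (R:ℝ) ≤ TT (pw w) y u} ⊆
      ⋃ y ∈ ball R u, {w | 3 * (R:ℝ) ≤ TT (pw w) y u} := by
    rintro w ⟨y, hy, h⟩
    simp only [Set.mem_iUnion]
    exact ⟨y, mem_ball.2 hy, h⟩
  refine (measureReal_mono h1 (measure_ne_top _ _)).trans ?_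
  refine (measureReal_biUnion_finset_le _ _).trans ?_
  have h2 : ∀ y ∈ ball R u, nu.real {w | 3 * (R:ℝ) ≤ TT (pw w) y u} ≤ (1 / 2) ^ R := fun y hy =>
    straight (by rw [dd_comm]; exact mem_ball.1 hy)
  refine (Finset.sum_le_card_nsmul _ _ _ h2).trans ?_
  rw [nsmul_eq_mul]
  refine mul_le_mul_of_nonneg_right ?_ (by positivity)
  exact_mod_cast card_ball' R u

/-- the deterministic step -/
lemma det {w : Ed → ℝ} {v : ℤ × ℤ} {s t r : ℝ} {R : ℕ} (h1 : TT (pw w) 0 v ≤ t)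
    (h2 : t ≤ TT (pw w) 0 v + s / 4) (hSB : ¬ SB (pw w) t r) (hr : r ≤ R)
    (hR : 3 * (R:ℝ) ≤ s / 4) (hs : 0 < s)
    (hF : ¬ ∃ y, dd (-v) y ≤ R ∧ 3 * (R:ℝ) ≤ TT (pw w) y (-v)) :
    TT (pw w) 0 (-v) ≤ TT (pw w) 0 v + s := by
  unfold SB at hSB
  push Not at hSB
  obtain ⟨y, hy1, hy2⟩ := hSB v h1
  have e : dd (-v) y = dd 0 (y + v) := by
    rw [← dd_add (-v) y v, neg_add_cancel]
  have h3 : dd (-v) y ≤ R := by
    rw [e]
    exact_mod_cast hy2.trans hr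
  have h4 : TT (pw w) y (-v) < 3 * R := by
    by_contra hc
    exact hF ⟨y, h3, not_lt.1 hc⟩
  have h5 := TT_tri (pw_nonneg w) 0 y (-v)
  linarith

/-- the set of the mesh times -/
noncomputable def JJ (n : ℕ) (s : ℝ) : Finset ℕ :=
  (range (⌊16 * (n:ℝ) / s⌋₊ + 1)).filter (fun j => (n:ℝ) / 50 ≤ j * (s / 4))

lemma incl {n : ℕ} {s a' : ℝ} {v : ℤ × ℤ} {R : ℕ} (ha' : 0 ≤ a') (hs : 0 < s) (hsn : s ≤ n)
    (hn : 117 ≤ n) (hR : 12 * (R:ℝ) ≤ s) (hR2 : (4 * (n:ℝ)) ^ a' ≤ R) :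
    {w : Ed → ℝ | TT (pw w) 0 v + s < TT (pw w) 0 (-v)} ⊆
      ({w : Ed → ℝ | TT (pw w) 0 v < 3 * ((n / 66 : ℕ) : ℝ)} ∪ {w | 3 * (n:ℝ) ≤ TT (pw w) 0 v}) ∪
      ({w | ∃ y, dd (-v) y ≤ R ∧ 3 * (R:ℝ) ≤ TT (pw w) y (-v)} ∪
        ⋃ j ∈ JJ n s, {w | SB (pw w) (j * (s / 4)) ((j * (s / 4)) ^ a')}) := by
  intro w hw
  by_contra hc
  simp only [Set.mem_union, Set.mem_iUnion, not_or, not_exists] at hc
  obtain ⟨⟨c1, c2⟩, c3, c4⟩ := hc
  simp only [Set.mem_setOf_eq, not_lt, not_le] at hw c1 c2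
  set T := TT (pw w) 0 v with hT
  have hT0 : 0 ≤ T := TT_nonneg (pw_nonneg w) _ _
  have hs4 : 0 < s / 4 := by linarith
  set j := ⌈T / (s / 4)⌉₊ with hj
  have j1 : T ≤ j * (s / 4) := (div_le_iff₀ hs4).1 (Nat.le_ceil _)
  have j2 : j * (s / 4) ≤ T + s / 4 := by
    have h1 := Nat.ceil_lt_add_one (show 0 ≤ T / (s / 4) by positivity)
    rw [← hj, ← sub_lt_iff_lt_add, lt_div_iff₀ hs4] at h1
    linarith
  have h66 : (n:ℝ) / 50 ≤ 3 * ((n / 66 : ℕ) : ℝ) := by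
    have h1 : n ≤ 66 * (n / 66) + 65 := by omega
    have h2 : (n:ℝ) ≤ 66 * ((n / 66 : ℕ) : ℝ) + 65 := by exact_mod_cast h1
    have h3 : (117:ℝ) ≤ n := by exact_mod_cast hn
    linarith
  have hup : j * (s / 4) ≤ 4 * (n:ℝ) := by linarith
  have hjJ : j ∈ JJ n s := by
    unfold JJ
    rw [mem_filter, mem_range]
    refine ⟨?_, h66.trans (c1.trans j1)⟩
    apply Nat.lt_succ_of_le
    apply Nat.le_floor
    rw [le_div_iff₀ hs]
    linarith
  have hSB : ¬ SB (pw w) (j * (s / 4)) ((j * (s / 4)) ^ a') := fun h => c4 j hjJ h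
  have h5 : ((j:ℝ) * (s / 4)) ^ a' ≤ R :=
    (Real.rpow_le_rpow (by positivity) hup ha').trans hR2
  have h6 := det j1 j2 hSB h5 (by linarith) hs (fun h => c3 h)
  linarith

lemma prob {n : ℕ} {s a' P : ℝ} {v : ℤ × ℤ} {R : ℕ} (hv : dd 0 v = n) (ha' : 0 ≤ a') (hs : 0 < s)
    (hsn : s ≤ n) (hn : 117 ≤ n) (hR : 12 * (R:ℝ) ≤ s) (hR2 : (4 * (n:ℝ)) ^ a' ≤ R)
    (hP : ∀ t : ℝ, (n:ℝ) / 50 ≤ t → nu.real {w : Ed → ℝ | SB (pw w) t (t ^ a')} ≤ P) (hP0 : 0 ≤ P) :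
    nu.real {w : Ed → ℝ | TT (pw w) 0 v + s < TT (pw w) 0 (-v)} ≤
      ((1 / 2) ^ (n / 66) + (1 / 2) ^ n) + ((2 * (R:ℝ) + 1) ^ 2 * (1 / 2) ^ R + 17 * n / s * P) := by
  refine (measureReal_mono (incl ha' hs hsn hn hR hR2) (measure_ne_top _ _)).trans ?_
  refine (measureReal_union_le _ _).trans (add_le_add ?_ ?_)
  · refine (measureReal_union_le _ _).trans (add_le_add ?_ ?_)
    · exact low_le (by rw [hv]; omega)
    · exact straight hv.le
  · refine (measureReal_union_le _ _).trans (add_le_add (fast _ _) ?_)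
    refine (measureReal_biUnion_finset_le _ _).trans ?_
    have h1 : ∀ j ∈ JJ n s, nu.real {w : Ed → ℝ | SB (pw w) (j * (s / 4)) ((j * (s / 4)) ^ a')} ≤ P := by
      intro j hj
      unfold JJ at hj
      rw [mem_filter] at hj
      exact hP _ hj.2
    refine (Finset.sum_le_card_nsmul _ _ _ h1).trans ?_
    rw [nsmul_eq_mul]
    refine mul_le_mul_of_nonneg_right ?_ hP0
    have h2 : (JJ n s).card ≤ ⌊16 * (n:ℝ) / s⌋₊ + 1 := by
      unfold JJ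
      exact (card_filter_le _ _).trans (by simp)
    have h3 : ((JJ n s).card : ℝ) ≤ (⌊16 * (n:ℝ) / s⌋₊ : ℝ) + 1 := by exact_mod_cast h2
    have h4 : (⌊16 * (n:ℝ) / s⌋₊ : ℝ) ≤ 16 * (n:ℝ) / s := Nat.floor_le (by positivity)
    have h5 : 1 ≤ (n:ℝ) / s := (one_le_div hs).2 hsn
    have e : 17 * (n:ℝ) / s = 16 * (n:ℝ) / s + n / s := by ring
    rw [e]
    linarith

/-- the main estimate -/
lemma main {b z : ℝ} (hb : 0 < b) (hb1 : b < 1) (hz : 0 < z) (hz1 : z ≤ (1 - b) / 2) (hS : Sy b) :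
    ∃ C : ℝ, 0 < C ∧ ∀ᶠ n : ℕ in atTop, ∀ v : ℤ × ℤ, dd 0 v = n →
      nu.real {w : Ed → ℝ | TT (pw w) 0 v + (n:ℝ) ^ (b + z) < TT (pw w) 0 (-v)} ≤
        C * (n:ℝ) ^ (-(2 * (1 - b))) := by
  obtain ⟨C1, h1⟩ := hS (z / 2) (by linarith) (by linarith)
  obtain ⟨t0, ht0⟩ := eventually_atTop.1 h1
  set q : ℝ := 2 * (1 - b) with hq
  have hq0 : 0 < q := by linarith
  set a : ℝ := b + z with ha
  have ha0 : 0 < a := by linarith
  have ha1 : a ≤ 1 := by linarith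
  set a' : ℝ := b + z / 2 with ha'
  have ha'0 : 0 < a' := by linarith
  have ha'a : a' < a := by linarith
  obtain ⟨C2, hC2, h2⟩ := half_poly q hq0
  obtain ⟨C3, hC3, h3⟩ := half_poly (2 + q / a) (by positivity)
  set D : ℝ := C2 * 66 ^ q + C2 + 4 * C3 * 12 ^ (q / a) +
    17 * (|C1| * 50 ^ (3 * (1 - b) - z / 2)) with hD
  refine ⟨D, by positivity, ?_⟩
  filter_upwards [eventually_ge_atTop 117, eventually_ge_atTop ⌈50 * t0⌉₊,
    pow_small (K := 3 * (4 ^ a' + 1)) ha'a] with n hn hnt hpow v hv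
  have hn1 : (1:ℝ) ≤ n := by
    have : 1 ≤ n := by omega
    exact_mod_cast this
  have hn0 : (0:ℝ) < n := by linarith
  set s : ℝ := (n:ℝ) ^ a with hs
  have hs1 : 1 ≤ s := Real.one_le_rpow hn1 ha0.le
  have hs0 : 0 < s := by linarith
  have hsn : s ≤ n := by
    have := Real.rpow_le_rpow_of_exponent_le hn1 ha1
    rwa [Real.rpow_one] at this
  set R : ℕ := ⌊s / 12⌋₊ with hR
  have hR1 : (R:ℝ) ≤ s / 12 := Nat.floor_le (by positivity)
  have hR2 : s / 12 < R + 1 := Nat.lt_floor_add_one _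
  have hna' : 1 ≤ (n:ℝ) ^ a' := Real.one_le_rpow hn1 ha'0.le
  have hR3 : (4 * (n:ℝ)) ^ a' ≤ R := by
    rw [Real.mul_rpow (by norm_num) hn0.le]
    have : (0:ℝ) < 4 ^ a' := by positivity
    nlinarith
  -- the bound for the mesh times
  have hexp : -(3 * (1 - b)) + z / 2 < 0 := by linarith
  set P : ℝ := |C1| * ((n:ℝ) / 50) ^ (-(3 * (1 - b)) + z / 2) with hP
  have hPb : ∀ t : ℝ, (n:ℝ) / 50 ≤ t → nu.real {w : Ed → ℝ | SB (pw w) t (t ^ a')} ≤ P := by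
    intro t ht
    have h4 : t0 ≤ t := by
      have h5 : 50 * t0 ≤ n := (Nat.le_ceil _).trans (by exact_mod_cast hnt)
      linarith
    refine (ht0 t h4).trans ?_
    have h6 : t ^ (-(3 * (1 - b)) + z / 2) ≤ ((n:ℝ) / 50) ^ (-(3 * (1 - b)) + z / 2) :=
      Real.rpow_le_rpow_of_nonpos (by positivity) ht hexp.le
    have h7 : 0 < t := by
      have : (0:ℝ) < (n:ℝ) / 50 := by positivity
      linarith
    calc C1 * t ^ (-(3 * (1 - b)) + z / 2) ≤ |C1| * t ^ (-(3 * (1 - b)) + z / 2) :=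
          mul_le_mul_of_nonneg_right (le_abs_self _) (by positivity)
      _ ≤ P := mul_le_mul_of_nonneg_left h6 (abs_nonneg _)
  have hmain := prob (v := v) hv ha'0.le hs0 hsn hn (R := R) (by linarith) hR3 hPb (by positivity)
  refine hmain.trans ?_
  have x0 : 0 < (n:ℝ) ^ (-q) := by positivity
  -- the four terms
  have t1 : (1 / 2 : ℝ) ^ (n / 66) ≤ C2 * 66 ^ q * (n:ℝ) ^ (-q) := by
    refine (h2 _).trans ?_
    rw [mul_assoc]
    refine mul_le_mul_of_nonneg_left ?_ hC2.le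
    have h4 : (n:ℝ) / 66 ≤ ((n / 66 : ℕ) : ℝ) + 1 := by
      have h5 : n ≤ 66 * (n / 66) + 65 := by omega
      have h6 : (n:ℝ) ≤ 66 * ((n / 66 : ℕ) : ℝ) + 65 := by exact_mod_cast h5
      linarith
    refine (Real.rpow_le_rpow_of_nonpos (by positivity) h4 (by linarith)).trans (le_of_eq ?_)
    rw [Real.div_rpow hn0.le (by norm_num), Real.rpow_neg (by norm_num : (0:ℝ) ≤ 66),
      div_inv_eq_mul, mul_comm]
  have t2 : (1 / 2 : ℝ) ^ n ≤ C2 * (n:ℝ) ^ (-q) := by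
    refine (h2 _).trans (mul_le_mul_of_nonneg_left ?_ hC2.le)
    exact Real.rpow_le_rpow_of_nonpos hn0 (by linarith) (by linarith)
  have t3 : (2 * (R:ℝ) + 1) ^ 2 * (1 / 2) ^ R ≤ 4 * C3 * 12 ^ (q / a) * (n:ℝ) ^ (-q) := by
    have hR0 : (0:ℝ) ≤ R := Nat.cast_nonneg R
    have hR10 : (0:ℝ) < (R:ℝ) + 1 := by linarith
    have h4 : (2 * (R:ℝ) + 1) ^ 2 ≤ 4 * ((R:ℝ) + 1) ^ 2 := by nlinarith
    have h5 : (2 * (R:ℝ) + 1) ^ 2 * (1 / 2) ^ R ≤
        (4 * ((R:ℝ) + 1) ^ 2) * (C3 * ((R:ℝ) + 1) ^ (-(2 + q / a))) :=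
      mul_le_mul h4 (h3 R) (by positivity) (by positivity)
    have e1 : (4 * ((R:ℝ) + 1) ^ 2) * (C3 * ((R:ℝ) + 1) ^ (-(2 + q / a))) =
        4 * C3 * ((R:ℝ) + 1) ^ (-(q / a)) := by
      have : ((R:ℝ) + 1) ^ (-(q / a)) = ((R:ℝ) + 1) ^ 2 * ((R:ℝ) + 1) ^ (-(2 + q / a)) := by
        rw [← Real.rpow_natCast ((R:ℝ) + 1) 2, ← Real.rpow_add hR10]
        congr 1
        push_cast
        ring
      rw [this]
      ring
    rw [e1] at h5
    refine h5.trans ?_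
    rw [mul_assoc (4 * C3)]
    refine mul_le_mul_of_nonneg_left ?_ (by positivity)
    have hqa : 0 < q / a := by positivity
    refine (Real.rpow_le_rpow_of_nonpos (by positivity) hR2.le (by linarith)).trans (le_of_eq ?_)
    rw [Real.div_rpow hs0.le (by norm_num), Real.rpow_neg (by norm_num : (0:ℝ) ≤ 12),
      div_inv_eq_mul, mul_comm]
    congr 1
    rw [hs, ← Real.rpow_mul hn0.le]
    congr 1
    field_simp
  have t4 : 17 * n / s * P ≤ 17 * (|C1| * 50 ^ (3 * (1 - b) - z / 2)) * (n:ℝ) ^ (-q) := by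
    have e1 : ((n:ℝ) / 50) ^ (-(3 * (1 - b)) + z / 2) =
        50 ^ (3 * (1 - b) - z / 2) * (n:ℝ) ^ (-(3 * (1 - b)) + z / 2) := by
      rw [show -(3 * (1 - b)) + z / 2 = -(3 * (1 - b) - z / 2) by ring,
        Real.div_rpow hn0.le (by norm_num), Real.rpow_neg (by norm_num : (0:ℝ) ≤ 50),
        div_inv_eq_mul, mul_comm]
    have e2 : (n:ℝ) / s * (n:ℝ) ^ (-(3 * (1 - b)) + z / 2) = (n:ℝ) ^ (-q - z / 2) := by
      rw [hs, div_mul_eq_mul_div, div_eq_iff (by positivity)]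
      nth_rewrite 1 [← Real.rpow_one (n:ℝ)]
      rw [← Real.rpow_add hn0, ← Real.rpow_add hn0]
      congr 1
      rw [hq, ha]
      ring
    have e3 : (n:ℝ) ^ (-q - z / 2) ≤ (n:ℝ) ^ (-q) :=
      Real.rpow_le_rpow_of_exponent_le hn1 (by linarith)
    calc 17 * n / s * P = 17 * (|C1| * 50 ^ (3 * (1 - b) - z / 2)) *
          ((n:ℝ) / s * (n:ℝ) ^ (-(3 * (1 - b)) + z / 2)) := by rw [hP, e1]; ring
      _ ≤ _ := by
          rw [e2]
          exact mul_le_mul_of_nonneg_left e3 (by positivity)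
  rw [hD]
  linarith

/-- 9. symmetric clusters give symmetric passage times -/
theorem t_MESH : S_MESH := by
  intro b hb hb1 hS ζ hζ
  set z : ℝ := min ζ ((1 - b) / 2) with hz
  have hz0 : 0 < z := lt_min hζ (by linarith)
  have hzζ : z ≤ ζ := min_le_left _ _
  obtain ⟨C, hC, h⟩ := main hb hb1 hz0 (min_le_right _ _) hS
  have hq0 : 0 < 2 * (1 - b) := by linarith
  obtain ⟨C', hC', h'⟩ := of_ev (P := fun v => nu.real {w : Ed → ℝ |
      (dd 0 v : ℝ) ^ (b + ζ) < |TT (pw w) 0 v - TT (pw w) 0 (-v)|}) (fun v => measureReal_le_one)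
    hq0 (C := 2 * C) (by positivity) (by
      filter_upwards [h, eventually_ge_atTop 1] with n hn hn1 v hv
      have hn1' : (1:ℝ) ≤ n := by exact_mod_cast hn1
      have hv' : dd 0 (-v) = n := by
        rw [← hv]
        simp [dd]
      have h1 := hn v hv
      have h2 := hn (-v) hv'
      rw [neg_neg] at h2
      have hle : (n:ℝ) ^ (b + z) ≤ (n:ℝ) ^ (b + ζ) :=
        Real.rpow_le_rpow_of_exponent_le hn1' (by linarith)
      have hsub : {w : Ed → ℝ | (dd 0 v : ℝ) ^ (b + ζ) < |TT (pw w) 0 v - TT (pw w) 0 (-v)|} ⊆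
          {w : Ed → ℝ | TT (pw w) 0 v + (n:ℝ) ^ (b + z) < TT (pw w) 0 (-v)} ∪
          {w : Ed → ℝ | TT (pw w) 0 (-v) + (n:ℝ) ^ (b + z) < TT (pw w) 0 v} := by
        intro w hw
        rw [Set.mem_setOf_eq, hv, lt_abs] at hw
        rcases hw with hw | hw
        · right
          rw [Set.mem_setOf_eq]
          linarith
        · left
          rw [Set.mem_setOf_eq]
          linarith
      refine (measureReal_mono hsub (measure_ne_top _ _)).trans ((measureReal_union_le _ _).trans ?_)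
      linarith)
  refine ⟨C', fun v hv => (h' v hv).trans ?_⟩
  have h1 : (1:ℝ) ≤ dd 0 v := by exact_mod_cast dd_pos hv
  exact mul_le_mul_of_nonneg_left (Real.rpow_le_rpow_of_exponent_le h1 (by linarith)) hC'.le

end Pool.Agent.H31.SY
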