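import Pool.Agent.H30.SY.Stm6
import Pool.Agent.H50.SY.U1

/-!
# First-passage percolation: one point, upper side (piece R3)
-/

set_option autoImplicit false

open MeasureTheory ProbabilityTheory Finset Filter
open scoped Topology Pointwise

namespace Pool.Agent.H31.SY.R3

open Q70.Fp Pool.Agent.H30.SY Pool.Agent.H50.SY.U1

lemma chain (hREV : S_REV) {v x : ℤ × ℤ} {K n : ℕ} {s : ℝ} {w : Ed → ℝ}
    (hn : dd 0 x + (K + 2) * dd 0 v ≤ n) (hB : RS w n s) :
    ∀ j : ℕ, j ≤ K → |TT w x (x + v) - TT w (x + (j:ℤ) • v) (x + (j:ℤ) • v + v)| ≤ j * s := by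
  intro j
  induction j with
  | zero => intro _; simp
  | succ j ih =>
    intro hj
    have h1 := ih (by omega)
    obtain ⟨y, hy⟩ : ∃ y, y = x + (j:ℤ) • v := ⟨_, rfl⟩
    have hy2 : x + ((j + 1 : ℕ):ℤ) • v = y + v := by
      rw [hy, Nat.cast_succ, add_smul, one_smul, add_assoc]
    rw [← hy] at h1
    rw [hy2]
    have d1 : dd 0 y ≤ dd 0 x + j * dd 0 v := by
      rw [hy]
      refine (dd_add0 _ _).trans ?_
      rw [dd_zsm]
      simp
    have d2 : dd 0 (y + v) ≤ dd 0 x + j * dd 0 v + dd 0 v := by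
      have := dd_add0 y v
      omega
    have d3 : j * dd 0 v + dd 0 v + dd 0 v ≤ (K + 2) * dd 0 v := by
      have : (j + 2) * dd 0 v ≤ (K + 2) * dd 0 v := Nat.mul_le_mul_right _ (by omega)
      nlinarith
    have b1 : y + v ∈ ball n 0 := by
      rw [mem_ball]
      omega
    have b2 : v ∈ ball n 0 := by
      rw [mem_ball]
      omega
    have k1 := hB (y + v) b1 v b2
    rw [add_sub_cancel_right, hREV w (y + v) y] at k1
    rw [abs_le] at k1 h1 ⊢
    push_cast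
    constructor <;> nlinarith [k1.1, k1.2, h1.1, h1.2]

lemma dd_self_add (c v : ℤ × ℤ) : dd c (c + v) = dd 0 v := by
  simp only [dd, Prod.fst_add, Prod.snd_add, Prod.fst_zero, Prod.snd_zero]
  omega

/-- the quantitative form -/
lemma quant (hREV : S_REV) {v : ℤ × ℤ} {J n d : ℕ} {s m R c : ℝ} (hdd : dd 0 v = d) (hd : 3 ≤ d)
    (hs : 0 ≤ s) (hn : (133 * J + 2) * d ≤ n) (hR : 266 * (J:ℝ) * s ≤ R)
    (hhi : nu.real {w : Ed → ℝ | m < TT (pw w) 0 v} ≤ 1 / 2)
    (hq : 1 / 4 < nu.real {w : Ed → ℝ | m + R < TT (pw w) 0 v})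
    (hc : c ≤ nu.real {w : Ed → ℝ | RS (pw w) n s}) :
    c ≤ 2 * (3 / 4) ^ J + J * (2 * (1 / 2) ^ d) := by
  obtain ⟨b, hb⟩ : ∃ b : ℕ → ℤ × ℤ, b = fun i => 0 + ((133 * i : ℕ) : ℤ) • v := ⟨_, rfl⟩
  have hsep : ∀ i ∈ range J, ∀ j ∈ range J, i ≠ j → 2 * (66 * d) < dd (b i) (b j) := by
    intro i _ j _ hij
    rw [hb]
    simp only
    rw [dd_cc, hdd]
    have h1 : 133 ≤ (((133 * i : ℕ) : ℤ) - ((133 * j : ℕ) : ℤ)).natAbs := by
      push_cast
      omega
    have h2 : 133 * d ≤ (((133 * i : ℕ) : ℤ) - ((133 * j : ℕ) : ℤ)).natAbs * d :=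
      Nat.mul_le_mul_right _ h1
    omega
  have hdc : ∀ i, dd (b i) (b i + v) = d := fun i => by rw [dd_self_add, hdd]
  have hp8 : ((1:ℝ) / 2) ^ d ≤ 1 / 8 := by
    have h := pow_le_pow_of_le_one (by norm_num : (0:ℝ) ≤ 1 / 2) (by norm_num : (1:ℝ) / 2 ≤ 1) hd
    refine h.trans (by norm_num)
  have l0 : nu.real {w : Ed → ℝ | TT (pw w) 0 v ≠ TB (pw w) (66 * d) 0 v} ≤ 2 * (1 / 2) ^ d :=
    Pool.Agent.H59.SY.loc 0 v (by rw [hdd])
  have li : ∀ i, nu.real {w : Ed → ℝ | TT (pw w) (b i) (b i + v) ≠ TB (pw w) (66 * d) (b i) (b i + v)} ≤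
      2 * (1 / 2) ^ d := fun i => Pool.Agent.H59.SY.loc _ _ (by rw [hdc])
  have p1 : nu.real {w : Ed → ℝ | TB (pw w) (66 * d) 0 v ∈ Set.Ioi m} ≤ 3 / 4 := by
    have hsub : {w : Ed → ℝ | TB (pw w) (66 * d) 0 v ∈ Set.Ioi m} ⊆
        {w | m < TT (pw w) 0 v} ∪ {w : Ed → ℝ | TT (pw w) 0 v ≠ TB (pw w) (66 * d) 0 v} := by
      intro w hw
      by_cases h : TT (pw w) 0 v = TB (pw w) (66 * d) 0 v
      · left
        show m < TT (pw w) 0 v
        rw [h]
        exact hw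
      · exact Or.inr h
    refine (measureReal_mono hsub (measure_ne_top nu _)).trans ((measureReal_union_le _ _).trans ?_)
    linarith
  have p2 : nu.real {w : Ed → ℝ | TB (pw w) (66 * d) 0 v ∈ Set.Iic (m + R)} ≤ 3 / 4 := by
    have hsub : {w : Ed → ℝ | TB (pw w) (66 * d) 0 v ∈ Set.Iic (m + R)} ⊆
        {w : Ed → ℝ | m + R < TT (pw w) 0 v}ᶜ := by
      intro w hw
      have h1 : TT (pw w) 0 v ≤ TB (pw w) (66 * d) 0 v := TT_le_TB (pw_nonneg w) (by omega)
      have h2 : TB (pw w) (66 * d) 0 v ≤ m + R := hw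
      exact fun h3 => absurd (show m + R < TT (pw w) 0 v from h3) (not_lt.2 (h1.trans h2))
    refine (measureReal_mono hsub (measure_ne_top nu _)).trans ?_
    rw [probReal_compl_eq_one_sub (measurableSet_lt measurable_const (measurable_TT 0 v))]
    linarith
  have i1 := indep_set J d v (measurableSet_Ioi (a := m)) b hsep
  have i2 := indep_set J d v (measurableSet_Iic (a := m + R)) b hsep
  have q1 : nu.real {w | ∀ i ∈ range J, TB (pw w) (66 * d) (b i) (b i + v) ∈ Set.Ioi m} ≤ (3 / 4) ^ J := by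
    rw [i1]
    exact pow_le_pow_left₀ measureReal_nonneg p1 J
  have q2 : nu.real {w | ∀ i ∈ range J, TB (pw w) (66 * d) (b i) (b i + v) ∈ Set.Iic (m + R)} ≤
      (3 / 4) ^ J := by
    rw [i2]
    exact pow_le_pow_left₀ measureReal_nonneg p2 J
  have q3 : nu.real (⋃ i ∈ range J, {w : Ed → ℝ | TT (pw w) (b i) (b i + v) ≠
      TB (pw w) (66 * d) (b i) (b i + v)}) ≤ J * (2 * (1 / 2) ^ d) := by
    refine (measureReal_biUnion_finset_le _ _).trans ?_
    refine (Finset.sum_le_sum fun j _ => li j).trans (le_of_eq ?_)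
    rw [Finset.sum_const, Finset.card_range, nsmul_eq_mul]
  have hsub : {w : Ed → ℝ | RS (pw w) n s} ⊆
      {w | ∀ i ∈ range J, TB (pw w) (66 * d) (b i) (b i + v) ∈ Set.Ioi m} ∪
      ({w | ∀ i ∈ range J, TB (pw w) (66 * d) (b i) (b i + v) ∈ Set.Iic (m + R)} ∪
      ⋃ i ∈ range J, {w : Ed → ℝ | TT (pw w) (b i) (b i + v) ≠
      TB (pw w) (66 * d) (b i) (b i + v)}) := by
    intro w hB
    have hB' : RS (pw w) n s := hB
    have h00 : dd 0 (0 : ℤ × ℤ) = 0 := dd_self 0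
    have hch : ∀ i ∈ range J, |TT (pw w) 0 (0 + v) - TT (pw w) (b i) (b i + v)| ≤ 133 * (J:ℝ) * s := by
      intro i hi
      have hi' := Finset.mem_range.1 hi
      have h := chain (x := 0) (K := 133 * J) hREV (by rw [hdd, h00, zero_add]; exact hn) hB'
        (133 * i) (by omega)
      rw [hb]
      refine h.trans (mul_le_mul_of_nonneg_right ?_ hs)
      push_cast
      have : (i:ℝ) ≤ J := by exact_mod_cast hi'.le
      linarith
    by_cases hall : ∀ i ∈ range J, TT (pw w) (b i) (b i + v) = TB (pw w) (66 * d) (b i) (b i + v)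
    · by_cases hle : ∀ i ∈ range J, TT (pw w) (b i) (b i + v) ≤ m + R
      · right
        left
        intro i hi
        show TB (pw w) (66 * d) (b i) (b i + v) ≤ m + R
        rw [← hall i hi]
        exact hle i hi
      · left
        push Not at hle
        obtain ⟨i, hi, hgt⟩ := hle
        intro j hj
        have h1 := abs_le.1 (hch i hi)
        have h2 := abs_le.1 (hch j hj)
        show m < TB (pw w) (66 * d) (b j) (b j + v)
        rw [← hall j hj]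
        linarith [h1.1, h1.2, h2.1, h2.2]
    · right
      right
      push Not at hall
      obtain ⟨i, hi, hne⟩ := hall
      simp only [Set.mem_iUnion]
      exact ⟨i, hi, hne⟩
  refine hc.trans ((measureReal_mono hsub (measure_ne_top nu _)).trans
    ((measureReal_union_le _ _).trans ?_))
  have h5 := measureReal_union_le (μ := nu)
    {w | ∀ i ∈ range J, TB (pw w) (66 * d) (b i) (b i + v) ∈ Set.Iic (m + R)}
    (⋃ i ∈ range J, {w : Ed → ℝ | TT (pw w) (b i) (b i + v) ≠ TB (pw w) (66 * d) (b i) (b i + v)})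
  linarith

theorem t_R3 (hREV : S_REV) : S_R3 := by
  intro b hb0 hb1 hRp ζ hζ
  obtain ⟨c, hc, hev⟩ := hRp (ζ / 2) (by linarith)
  obtain ⟨N0, hN0⟩ := eventually_atTop.1 hev
  obtain ⟨J, hJ⟩ := exists_pow_lt_of_lt_one (show 0 < c / 4 by linarith)
    (by norm_num : (3 / 4 : ℝ) < 1)
  obtain ⟨A, hA⟩ : ∃ A : ℕ, A = 133 * J + 3 := ⟨_, rfl⟩
  have hA1 : 1 ≤ A := by omega
  have hA0 : (0:ℝ) ≤ A := Nat.cast_nonneg A
  have e1 : ∀ᶠ n : ℕ in atTop, 266 * (J:ℝ) * (A:ℝ) ^ (b + ζ / 2) ≤ (n:ℝ) ^ (ζ / 2) :=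
    ((tendsto_rpow_atTop (show 0 < ζ / 2 by linarith)).comp
      tendsto_natCast_atTop_atTop).eventually_ge_atTop _
  have e2 : ∀ᶠ n : ℕ in atTop, (J:ℝ) * (2 * (1 / 2) ^ n) < c / 2 := by
    have h1 : Tendsto (fun n : ℕ => (J:ℝ) * (2 * (1 / 2 : ℝ) ^ n)) atTop (𝓝 ((J:ℝ) * (2 * 0))) :=
      ((tendsto_pow_atTop_nhds_zero_of_lt_one (by norm_num) (by norm_num)).const_mul 2).const_mul _
    rw [mul_zero, mul_zero] at h1
    exact h1.eventually (gt_mem_nhds (by linarith))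
  filter_upwards [e1, e2, eventually_ge_atTop 3, eventually_ge_atTop N0] with n f1 f2 f3 f4
  intro v hv m hm
  by_contra hcon
  push Not at hcon
  have hn0 : (0:ℝ) < n := by exact_mod_cast (by omega : 0 < n)
  have hAn : n ≤ A * n := Nat.le_mul_of_pos_left _ (by omega)
  have hc1 := hN0 (A * n) (f4.trans hAn)
  have hs : 0 ≤ (((A * n : ℕ) : ℝ)) ^ (b + ζ / 2) := Real.rpow_nonneg (Nat.cast_nonneg _) _
  have hR : 266 * (J:ℝ) * (((A * n : ℕ) : ℝ)) ^ (b + ζ / 2) ≤ (n:ℝ) ^ (b + ζ) := by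
    rw [Nat.cast_mul, Real.mul_rpow hA0 hn0.le]
    have h1 : (n:ℝ) ^ (b + ζ) = (n:ℝ) ^ (ζ / 2) * (n:ℝ) ^ (b + ζ / 2) := by
      rw [← Real.rpow_add hn0]
      congr 1
      ring
    rw [h1, ← mul_assoc]
    exact mul_le_mul_of_nonneg_right f1 (Real.rpow_nonneg hn0.le _)
  have key := quant hREV (n := A * n) (J := J) hv f3 hs
    (Nat.mul_le_mul_right _ (by omega)) hR hm.2 hcon hc1
  linarith

end Pool.Agent.H31.SY.R3

namespace Pool.Agent.H31.SY

theorem t_R3 (hREV : Pool.Agent.H30.SY.S_REV) : Pool.Agent.H30.SY.S_R3 := R3.t_R3 hREV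

end Pool.Agent.H31.SY
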