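import Pool.Agent.H30.SY.Stm2

/-!
# First-passage percolation: symmetric clusters give concentration
-/

set_option autoImplicit false

open MeasureTheory ProbabilityTheory Finset Filter
open scoped Topology

namespace Pool.Agent.H31.SY

open Q70.Fp Pool.Agent.H30.SY

lemma sy2_lower (hSETC : S_SETC) (hONE : S_ONE) {v : ℤ × ℤ} (hv : v ≠ 0) {c a' P : ℝ} {R : ℕ}
    (hR : 1 ≤ R) (hc : nu.real {w | TT (pw w) 0 v < c} ≤ 1 / 2)
    (hSB : ∀ t : ℝ, c - 402 * (R:ℝ) ≤ t → t ≤ c + 402 * (R:ℝ) →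
      nu.real {w : Ed → ℝ | SB (pw w) t (t ^ a')} ≤ P)
    (hr : ∀ t : ℝ, c - 402 * (R:ℝ) ≤ t → t ≤ c + 402 * (R:ℝ) → t ^ a' ≤ R) :
    nu.real {w : Ed → ℝ | TT (pw w) 0 v ≤ c - 402 * (R:ℝ)} ≤
      266 * (P + (2 * (R:ℝ) + 1) ^ 2 * (1 / 2) ^ R) + 18 * (1 / 2) ^ dd 0 v := by
  have hR' : (1:ℝ) ≤ R := by exact_mod_cast hR
  have h := hSETC v hv (fun i => Set.Iic (c - (134 - (i:ℝ)) * (3 * R))) (fun i => measurableSet_Iic)
    (P + (2 * (R:ℝ) + 1) ^ 2 * (1 / 2) ^ R) (by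
      intro i hi
      have hi' : (i:ℝ) ≤ 133 := by exact_mod_cast hi.le
      have hi0 : (0:ℝ) ≤ i := Nat.cast_nonneg i
      set t : ℝ := c - (134 - (i:ℝ)) * (3 * R) with ht
      have t1 : c - 402 * (R:ℝ) ≤ t := by rw [ht]; nlinarith
      have t2 : t ≤ c + 402 * (R:ℝ) := by rw [ht]; nlinarith
      have h1 := hONE v t (t ^ a') R (hr t t1 t2)
      refine le_trans (measureReal_mono ?_ (measure_ne_top _ _)) (h1.trans
        (add_le_add (hSB t t1 t2) le_rfl))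
      rintro w ⟨h2, h3⟩
      have h2' : TT (pw w) 0 (-v) ≤ t := h2
      have h3' : c - (134 - ((i + 1 : ℕ) : ℝ)) * (3 * R) < TT (pw w) 0 v := not_le.1 h3
      refine ⟨h2', ?_⟩
      push_cast at h3'
      rw [ht]
      linarith) (by
      refine le_trans (measureReal_mono ?_ (measure_ne_top _ _)) hc
      intro w h2
      have h2' : TT (pw w) 0 v ≤ c - (134 - ((133 : ℕ) : ℝ)) * (3 * R) := h2
      show TT (pw w) 0 v < c
      push_cast at h2'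
      linarith)
  refine le_trans (measureReal_mono ?_ (measure_ne_top _ _)) h
  intro w h2
  have h2' : TT (pw w) 0 v ≤ c - 402 * (R:ℝ) := h2
  show TT (pw w) 0 v ≤ c - (134 - ((0 : ℕ) : ℝ)) * (3 * R)
  push_cast
  linarith

lemma sy2_upper (hSETC : S_SETC) (hONE : S_ONE) {v : ℤ × ℤ} (hv : v ≠ 0) {c a' P : ℝ} {R : ℕ}
    (hc : nu.real {w | c < TT (pw w) 0 v} ≤ 1 / 2)
    (hSB : ∀ t : ℝ, c - 402 * (R:ℝ) ≤ t → t ≤ c + 402 * (R:ℝ) →
      nu.real {w : Ed → ℝ | SB (pw w) t (t ^ a')} ≤ P)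
    (hr : ∀ t : ℝ, c - 402 * (R:ℝ) ≤ t → t ≤ c + 402 * (R:ℝ) → t ^ a' ≤ R) :
    nu.real {w : Ed → ℝ | c + 402 * (R:ℝ) < TT (pw w) 0 v} ≤
      266 * (P + (2 * (R:ℝ) + 1) ^ 2 * (1 / 2) ^ R) + 18 * (1 / 2) ^ dd 0 v := by
  have hR' : (0:ℝ) ≤ R := Nat.cast_nonneg R
  have h := hSETC v hv (fun i => Set.Ioi (c + (134 - (i:ℝ)) * (3 * R))) (fun i => measurableSet_Ioi)
    (P + (2 * (R:ℝ) + 1) ^ 2 * (1 / 2) ^ R) (by
      intro i hi
      have hi' : (i:ℝ) ≤ 132 := by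
        have : i ≤ 132 := by omega
        exact_mod_cast this
      have hi0 : (0:ℝ) ≤ i := Nat.cast_nonneg i
      set t : ℝ := c + (133 - (i:ℝ)) * (3 * R) with ht
      have t1 : c - 402 * (R:ℝ) ≤ t := by rw [ht]; nlinarith
      have t2 : t ≤ c + 402 * (R:ℝ) := by rw [ht]; nlinarith
      have h1 := hONE (-v) t (t ^ a') R (hr t t1 t2)
      rw [neg_neg] at h1
      refine le_trans (measureReal_mono ?_ (measure_ne_top _ _)) (h1.trans
        (add_le_add (hSB t t1 t2) le_rfl))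
      rintro w ⟨h2, h3⟩
      have h2' : c + (134 - (i:ℝ)) * (3 * R) < TT (pw w) 0 (-v) := h2
      have h3' : TT (pw w) 0 v ≤ c + (134 - ((i + 1 : ℕ) : ℝ)) * (3 * R) := not_lt.1 h3
      push_cast at h3'
      constructor
      · rw [ht]
        linarith
      · rw [ht]
        linarith) (by
      refine le_trans (measureReal_mono ?_ (measure_ne_top _ _)) hc
      intro w h2
      have h2' : c + (134 - ((133 : ℕ) : ℝ)) * (3 * R) < TT (pw w) 0 v := h2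
      show c < TT (pw w) 0 v
      push_cast at h2'
      linarith)
  refine le_trans (measureReal_mono ?_ (measure_ne_top _ _)) h
  intro w h2
  have h2' : c + 402 * (R:ℝ) < TT (pw w) 0 v := h2
  show c + (134 - ((0 : ℕ) : ℝ)) * (3 * R) < TT (pw w) 0 v
  push_cast
  linarith

/-- the main estimate -/
lemma sy2_main (hSETC : S_SETC) (hONE : S_ONE) {b z : ℝ} (hb : 0 < b) (hb1 : b < 1) (hz : 0 < z)
    (hz1 : z ≤ (1 - b) / 2) (hS : Sy2 b) :
    ∃ C : ℝ, 0 < C ∧ ∀ᶠ n : ℕ in atTop, ∀ (v : ℤ × ℤ) (c : ℝ), dd 0 v = n →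
      3 * ((n / 66 : ℕ) : ℝ) ≤ c → c ≤ 3 * (n:ℝ) →
      nu.real {w | TT (pw w) 0 v < c} ≤ 1 / 2 → nu.real {w | c < TT (pw w) 0 v} ≤ 1 / 2 →
      nu.real {w : Ed → ℝ | (n:ℝ) ^ (b + z) < |TT (pw w) 0 v - c|} ≤
        C * (n:ℝ) ^ (-(2 * (1 - b) - z)) := by
  obtain ⟨C1, h1⟩ := hS (z / 3) (by linarith) (by linarith)
  obtain ⟨t0, ht0⟩ := eventually_atTop.1 h1
  set q : ℝ := 2 * (1 - b) - z with hq
  have hq0 : 0 < q := by linarith
  set a : ℝ := b + z with ha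
  have ha1 : a < 1 := by linarith
  set a' : ℝ := b + z / 3 with ha'
  have ha'0 : 0 < a' := by linarith
  have ha'a : a' < a := by linarith
  obtain ⟨C2, hC2, h2⟩ := half_poly q hq0
  obtain ⟨C3, hC3, h3⟩ := half_poly (2 + q / a') (by positivity)
  set e : ℝ := 2 * (1 - b) - z / 3 with he
  have he0 : 0 < e := by linarith
  set D : ℝ := 2 * (266 * (|C1| * 50 ^ e + 4 * C3) + 18 * C2) with hD
  refine ⟨D, by positivity, ?_⟩
  filter_upwards [eventually_ge_atTop 200, eventually_ge_atTop ⌈50 * t0⌉₊,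
    pow_small (K := 402 * (4 ^ a' + 1)) ha'a, pow_small (K := 402 * (4 ^ a' + 1) * 100)
      (show a' < 1 by linarith)] with n hn hnt hpow hpow1 v c hv hc1 hc2 hc3 hc4
  have hn1 : (200:ℝ) ≤ n := by exact_mod_cast hn
  have hn0 : (0:ℝ) < n := by linarith
  have hv0 : v ≠ 0 := by
    rintro rfl
    rw [dd_self] at hv
    omega
  rw [Real.rpow_one] at hpow1
  have hna' : 1 ≤ (n:ℝ) ^ a' := Real.one_le_rpow (by linarith) ha'0.le
  set R : ℕ := ⌈(4 * (n:ℝ)) ^ a'⌉₊ with hR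
  have h4n : (4 * (n:ℝ)) ^ a' = 4 ^ a' * (n:ℝ) ^ a' := Real.mul_rpow (by norm_num) hn0.le
  have h4 : (1:ℝ) ≤ 4 ^ a' := Real.one_le_rpow (by norm_num) ha'0.le
  have hR1 : (4 * (n:ℝ)) ^ a' ≤ R := Nat.le_ceil _
  have hR2 : (R:ℝ) < (4 * (n:ℝ)) ^ a' + 1 := Nat.ceil_lt_add_one (by positivity)
  have hRR : (R:ℝ) ≤ (4 ^ a' + 1) * (n:ℝ) ^ a' := by
    rw [h4n] at hR2
    nlinarith
  have hRn : (n:ℝ) ^ a' ≤ R := by
    refine le_trans ?_ hR1
    rw [h4n]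
    nlinarith
  have hR1' : 1 ≤ R := by
    have : (1:ℝ) ≤ R := hna'.trans hRn
    exact_mod_cast this
  have h402 : 402 * (R:ℝ) ≤ (n:ℝ) ^ a / 4 := by
    refine le_trans ?_ hpow
    nlinarith
  have h402' : 402 * (R:ℝ) ≤ n / 400 := by nlinarith
  have hc1' : (n:ℝ) / 44 ≤ c := by
    have h5 : n ≤ 66 * (n / 66) + 65 := by omega
    have h6 : (n:ℝ) ≤ 66 * ((n / 66 : ℕ) : ℝ) + 65 := by exact_mod_cast h5
    linarith
  set P : ℝ := |C1| * 50 ^ e * (n:ℝ) ^ (-q) with hP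
  have hPb : ∀ t : ℝ, c - 402 * (R:ℝ) ≤ t → t ≤ c + 402 * (R:ℝ) →
      nu.real {w : Ed → ℝ | SB (pw w) t (t ^ a')} ≤ P := by
    intro t ht _
    have h5 : (n:ℝ) / 50 ≤ t := by linarith
    have h6 : t0 ≤ t := by
      have h7 : 50 * t0 ≤ n := (Nat.le_ceil _).trans (by exact_mod_cast hnt)
      linarith
    have h7 : 0 < t := by linarith
    refine (ht0 t h6).trans ?_
    rw [show -(2 * (1 - b)) + z / 3 = -e by rw [he]; ring]
    have h8 : t ^ (-e) ≤ ((n:ℝ) / 50) ^ (-e) :=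
      Real.rpow_le_rpow_of_nonpos (by positivity) h5 (by linarith)
    have e1 : ((n:ℝ) / 50) ^ (-e) = 50 ^ e * (n:ℝ) ^ (-e) := by
      rw [Real.div_rpow hn0.le (by norm_num), Real.rpow_neg (by norm_num : (0:ℝ) ≤ 50),
        div_inv_eq_mul, mul_comm]
    have h9 : (n:ℝ) ^ (-e) ≤ (n:ℝ) ^ (-q) :=
      Real.rpow_le_rpow_of_exponent_le (by linarith) (by linarith)
    calc C1 * t ^ (-e) ≤ |C1| * t ^ (-e) :=
          mul_le_mul_of_nonneg_right (le_abs_self _) (by positivity)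
      _ ≤ |C1| * (50 ^ e * (n:ℝ) ^ (-e)) := by
          rw [← e1]
          exact mul_le_mul_of_nonneg_left h8 (abs_nonneg _)
      _ ≤ |C1| * (50 ^ e * (n:ℝ) ^ (-q)) :=
          mul_le_mul_of_nonneg_left (mul_le_mul_of_nonneg_left h9 (by positivity)) (abs_nonneg _)
      _ = P := by rw [hP]; ring
  have hr : ∀ t : ℝ, c - 402 * (R:ℝ) ≤ t → t ≤ c + 402 * (R:ℝ) → t ^ a' ≤ R := by
    intro t h5 h6
    exact (Real.rpow_le_rpow (by linarith) (by linarith) ha'0.le).trans hR1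
  have hlo := sy2_lower hSETC hONE hv0 hR1' hc3 hPb hr
  have hup := sy2_upper hSETC hONE hv0 hc4 hPb hr
  have hsub : {w : Ed → ℝ | (n:ℝ) ^ a < |TT (pw w) 0 v - c|} ⊆
      {w : Ed → ℝ | TT (pw w) 0 v ≤ c - 402 * (R:ℝ)} ∪
      {w : Ed → ℝ | c + 402 * (R:ℝ) < TT (pw w) 0 v} := by
    intro w hw
    have hw' : (n:ℝ) ^ a < |TT (pw w) 0 v - c| := hw
    have hx : 0 < (n:ℝ) ^ a := by positivity
    rw [lt_abs] at hw'
    rcases hw' with hw' | hw'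
    · right
      show c + 402 * (R:ℝ) < TT (pw w) 0 v
      linarith
    · left
      show TT (pw w) 0 v ≤ c - 402 * (R:ℝ)
      linarith
  refine (measureReal_mono hsub (measure_ne_top _ _)).trans ((measureReal_union_le _ _).trans ?_)
  refine (add_le_add hlo hup).trans ?_
  have t2 : (1 / 2 : ℝ) ^ dd 0 v ≤ C2 * (n:ℝ) ^ (-q) := by
    rw [hv]
    refine (h2 _).trans (mul_le_mul_of_nonneg_left ?_ hC2.le)
    exact Real.rpow_le_rpow_of_nonpos hn0 (by linarith) (by linarith)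
  have t3 : (2 * (R:ℝ) + 1) ^ 2 * (1 / 2) ^ R ≤ 4 * C3 * (n:ℝ) ^ (-q) := by
    have hR0 : (0:ℝ) ≤ R := Nat.cast_nonneg R
    have hR10 : (0:ℝ) < (R:ℝ) + 1 := by linarith
    have h4 : (2 * (R:ℝ) + 1) ^ 2 ≤ 4 * ((R:ℝ) + 1) ^ 2 := by nlinarith
    have h5 : (2 * (R:ℝ) + 1) ^ 2 * (1 / 2) ^ R ≤
        (4 * ((R:ℝ) + 1) ^ 2) * (C3 * ((R:ℝ) + 1) ^ (-(2 + q / a'))) :=
      mul_le_mul h4 (h3 R) (by positivity) (by positivity)
    have e1 : (4 * ((R:ℝ) + 1) ^ 2) * (C3 * ((R:ℝ) + 1) ^ (-(2 + q / a'))) =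
        4 * C3 * ((R:ℝ) + 1) ^ (-(q / a')) := by
      have : ((R:ℝ) + 1) ^ (-(q / a')) = ((R:ℝ) + 1) ^ 2 * ((R:ℝ) + 1) ^ (-(2 + q / a')) := by
        rw [← Real.rpow_natCast ((R:ℝ) + 1) 2, ← Real.rpow_add hR10]
        congr 1
        push_cast
        ring
      rw [this]
      ring
    rw [e1] at h5
    refine h5.trans (mul_le_mul_of_nonneg_left ?_ (by positivity))
    have hqa : 0 < q / a' := by positivity
    have h6 : (n:ℝ) ^ a' ≤ (R:ℝ) + 1 := by linarith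
    refine (Real.rpow_le_rpow_of_nonpos (by positivity) h6 (by linarith)).trans (le_of_eq ?_)
    rw [← Real.rpow_mul hn0.le]
    congr 1
    field_simp
  have x0 : 0 < (n:ℝ) ^ (-q) := by positivity
  have ef : D * (n:ℝ) ^ (-q) = 2 * (266 * (|C1| * 50 ^ e * (n:ℝ) ^ (-q) + 4 * C3 * (n:ℝ) ^ (-q)) +
      18 * (C2 * (n:ℝ) ^ (-q))) := by rw [hD]; ring
  rw [ef, ← hP]
  linarith

/-- 15. symmetric clusters give concentration -/
theorem t_SYM2 (hSETC : S_SETC) (hONE : S_ONE) (hMED : S_MED) : S_SYM2 := by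
  classical
  intro b hb hb1 hS ζ hζ
  set z : ℝ := min ζ ((1 - b) / 2) with hz
  have hz0 : 0 < z := lt_min hζ (by linarith)
  have hzζ : z ≤ ζ := min_le_left _ _
  have hz1 : z ≤ (1 - b) / 2 := min_le_right _ _
  obtain ⟨C, hC, h⟩ := sy2_main hSETC hONE hb hb1 hz0 hz1 hS
  have hMED' : ∀ v : ℤ × ℤ, ∃ c : ℝ, 132 ≤ dd 0 v →
      3 * ((dd 0 v / 66 : ℕ) : ℝ) ≤ c ∧ c ≤ 3 * (dd 0 v : ℝ) ∧
      nu.real {w | TT (pw w) 0 v < c} ≤ 1 / 2 ∧ nu.real {w | c < TT (pw w) 0 v} ≤ 1 / 2 := by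
    intro v
    by_cases hv : 132 ≤ dd 0 v
    · obtain ⟨c, hc⟩ := hMED v hv
      exact ⟨c, fun _ => hc⟩
    · exact ⟨0, fun h => absurd h hv⟩
  choose m hm using hMED'
  have hq0 : 0 < 2 * (1 - b) - z := by linarith
  obtain ⟨C', hC', h'⟩ := of_ev (P := fun v => nu.real {w : Ed → ℝ |
      (dd 0 v : ℝ) ^ (b + ζ) < |TT (pw w) 0 v - m v|}) (fun v => measureReal_le_one)
    hq0 hC (by
      filter_upwards [h, eventually_ge_atTop 132] with n hn hn1 v hv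
      have hn1' : (1:ℝ) ≤ n := by
        have : 1 ≤ n := by omega
        exact_mod_cast this
      obtain ⟨g1, g2, g3, g4⟩ := hm v (by omega)
      rw [hv] at g1 g2
      have h1 := hn v (m v) hv g1 g2 g3 g4
      refine le_trans (measureReal_mono ?_ (measure_ne_top _ _)) h1
      intro w hw
      have hw' : (dd 0 v : ℝ) ^ (b + ζ) < |TT (pw w) 0 v - m v| := hw
      rw [hv] at hw'
      exact lt_of_le_of_lt (Real.rpow_le_rpow_of_exponent_le hn1' (by linarith)) hw')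
  refine ⟨m, C', fun v hv => (h' v hv).trans ?_⟩
  have h1 : (1:ℝ) ≤ dd 0 v := by exact_mod_cast dd_pos hv
  exact mul_le_mul_of_nonneg_left (Real.rpow_le_rpow_of_exponent_le h1 (by linarith)) hC'.le

end Pool.Agent.H31.SY
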